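import Pool.Agent.D0H89.OF.Stm

/-!
Module JORD of project OF: Jordan decomposition inside the algebra generated by a matrix.
-/

set_option autoImplicit false

open Polynomial

namespace Pool.Agent.D0H35.OF

open Pool.Agent.D0H89.OF

section

variable {σ : Type} [Fintype σ] [DecidableEq σ] {K : Type} [Field K]

theorem inv_mem (X Y : Matrix σ σ K) (h : Y * X = 1) : Y ∈ Algebra.adjoin K {X} := by
  set S := Algebra.adjoin K {X} with hS
  have hX : X ∈ S := Algebra.subset_adjoin rfl
  let f : S →ₗ[K] S := LinearMap.mulLeft K (⟨X, hX⟩ : S)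
  have hf : Function.Injective f := by
    intro a b hab
    have h1 : X * (a : Matrix σ σ K) = X * b := congrArg Subtype.val hab
    apply Subtype.ext
    calc (a : Matrix σ σ K) = Y * (X * a) := by rw [← Matrix.mul_assoc, h, Matrix.one_mul]
      _ = Y * (X * b) := by rw [h1]
      _ = b := by rw [← Matrix.mul_assoc, h, Matrix.one_mul]
  obtain ⟨y, hy⟩ := LinearMap.surjective_of_injective hf 1
  have h1 : X * (y : Matrix σ σ K) = 1 := congrArg Subtype.val hy
  have h2 : Y = y := by
    calc Y = Y * (X * y) := by rw [h1, Matrix.mul_one]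
      _ = y := by rw [← Matrix.mul_assoc, h, Matrix.one_mul]
  rw [h2]
  exact y.2

theorem log_poly [CharZero K] (n : Matrix σ σ K) (m : ℕ) (hn : n ^ (m + 1) = 0) :
    ∃ p : K[X], (aeval n p) ^ (m + 1) = 0 ∧ exK (aeval n p) m 1 = 1 + n := by
  rcases Nat.eq_zero_or_pos m with hm | hm
  · subst hm
    rw [zero_add, pow_one] at hn
    refine ⟨0, by simp, ?_⟩
    rw [hn, exK]
    simp
  obtain ⟨p, ⟨p', hp'⟩, q, hq⟩ := exists_logP (K := K) m hm m
  refine ⟨p, ?_, ?_⟩
  · rw [← map_pow, hp', mul_pow, map_mul, map_pow, Polynomial.aeval_X, hn, zero_mul]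
  · have h1 : exK (Polynomial.aeval n p) m 1 = Polynomial.aeval n ((eP K m).eval p) := by
      rw [eP_eval, map_sum, exK]
      refine Finset.sum_congr rfl (fun j _ => ?_)
      rw [map_mul, Polynomial.aeval_C, map_pow, one_pow, one_mul, Algebra.smul_def]
    have h2 : (eP K m).eval p = Polynomial.X ^ (m + 1) * q + (1 + Polynomial.X) := by
      rw [← hq]; ring
    rw [h1, h2, map_add, map_mul, map_pow, Polynomial.aeval_X, hn, zero_mul, zero_add, map_add,
      map_one, Polynomial.aeval_X]

end

theorem t_JORD : S_JORD := by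
  intro σ K _ _ _ _ _ g g' hgg'
  classical
  have hg'g : g' * g = 1 := mul_eq_one_comm.1 hgg'
  have hg : IsUnit g := ⟨⟨g, g', hgg', hg'g⟩, rfl⟩
  let φ : Matrix σ σ K ≃ₐ[K] Module.End K (σ → K) := Matrix.toLinAlgEquiv'
  obtain ⟨n, hn, s, hs, hnil, hss, hf⟩ := (φ g).exists_isNilpotent_isSemisimple
  have hcomm : Commute n s := by
    have h1 : Commute (φ g) s := Algebra.commute_of_mem_adjoin_self hs
    exact (Algebra.commute_of_mem_adjoin_singleton_of_commute hn h1.symm).symm
  have hadj : ∀ x ∈ Algebra.adjoin K {φ g}, φ.symm x ∈ Algebra.adjoin K {g} := by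
    intro x hx
    have h1 : (Algebra.adjoin K {φ g}).map (φ.symm : Module.End K (σ → K) →ₐ[K] Matrix σ σ K) =
        Algebra.adjoin K {g} := by
      rw [AlgHom.map_adjoin_singleton]
      simp
    rw [← h1]
    exact Subalgebra.mem_map.2 ⟨x, hx, rfl⟩
  obtain ⟨b, μ, hb⟩ := exists_eigenbasis s hss
  let P : Matrix σ σ K := (Pi.basisFun K σ).toMatrix b
  let P' : Matrix σ σ K := b.toMatrix (Pi.basisFun K σ)
  have h1 : P * P' = 1 := (Pi.basisFun K σ).toMatrix_mul_toMatrix_flip b
  have h2 : P' * P = 1 := b.toMatrix_mul_toMatrix_flip (Pi.basisFun K σ)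
  have hPe : ∀ i, P.mulVec (Pi.single i 1) = b i := by
    intro i
    rw [Matrix.mulVec_single_one]
    funext j
    simp [P, Module.Basis.toMatrix_apply]
  have hP'b : ∀ i, P'.mulVec (b i) = Pi.single i 1 := by
    intro i
    rw [← hPe, Matrix.mulVec_mulVec, h2, Matrix.one_mulVec]
  set S0 : Matrix σ σ K := φ.symm s with hS0
  set N0 : Matrix σ σ K := φ.symm n with hN0
  have hS0m : S0 ∈ Algebra.adjoin K {g} := hadj s hs
  have hN0m : N0 ∈ Algebra.adjoin K {g} := hadj n hn
  have hφ : ∀ (A : Matrix σ σ K) v, φ A v = A.mulVec v := fun A v =>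
    Matrix.toLinAlgEquiv'_apply A v
  have hg0 : g = N0 + S0 := by
    rw [hN0, hS0, ← map_add, ← hf, AlgEquiv.symm_apply_apply]
  have hNS : Commute N0 S0 := by
    have h3 := hcomm.map φ.symm
    exact h3
  have hS0b : ∀ i, S0.mulVec (b i) = μ i • b i := by
    intro i
    rw [← hφ, hS0, AlgEquiv.apply_symm_apply, hb]
  have hD : P' * S0 * P = Matrix.diagonal μ := by
    ext j i
    have h3 : (P' * S0 * P).mulVec (Pi.single i 1) = μ i • Pi.single i 1 := by
      rw [← Matrix.mulVec_mulVec, ← Matrix.mulVec_mulVec, hPe, hS0b, Matrix.mulVec_smul, hP'b]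
    have h4 := congrFun h3 j
    rw [Matrix.mulVec_single_one] at h4
    have h5 : (P' * S0 * P) j i = (μ i • (Pi.single i 1 : σ → K)) j := h4
    rw [h5, Matrix.diagonal_apply]
    by_cases hij : j = i
    · subst hij; simp
    · rw [if_neg hij]
      simp [Pi.single_apply, hij]
  set n' : Matrix σ σ K := P' * N0 * P with hn'
  have hconj : ∀ A B : Matrix σ σ K, (P' * A * P) * (P' * B * P) = P' * (A * B) * P := by
    intro A B
    calc (P' * A * P) * (P' * B * P) = P' * A * (P * P') * B * P := by
          simp only [Matrix.mul_assoc]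
      _ = P' * (A * B) * P := by rw [h1, Matrix.mul_one]; simp only [Matrix.mul_assoc]
  have hconjpow : ∀ (A : Matrix σ σ K) (k : ℕ), (P' * A * P) ^ k = P' * A ^ k * P := by
    intro A k
    induction k with
    | zero => rw [pow_zero, pow_zero, Matrix.mul_one, h2]
    | succ k ih => rw [pow_succ, ih, hconj, ← pow_succ]
  have hcommD : Commute (Matrix.diagonal μ) n' := by
    show Matrix.diagonal μ * n' = n' * Matrix.diagonal μ
    rw [← hD, hn', hconj, hconj, hNS.eq]
  obtain ⟨k0, hk0⟩ : ∃ k, N0 ^ k = 0 := by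
    obtain ⟨k, hk⟩ := hnil
    refine ⟨k, ?_⟩
    rw [hN0, ← map_pow, hk, map_zero]
  have hn'k : n' ^ k0 = 0 := by rw [hn', hconjpow, hk0, Matrix.mul_zero, Matrix.zero_mul]
  have hg' : P' * g * P = Matrix.diagonal μ + n' := by
    rw [hg0, hn', ← hD, Matrix.mul_add, Matrix.add_mul, add_comm]
  have hμ : ∀ i, μ i ≠ 0 := by
    intro i hi
    have hDe : (Matrix.diagonal μ).mulVec (Pi.single i 1) = 0 := by
      funext j
      rw [Matrix.mulVec_diagonal]
      by_cases hij : j = i
      · rw [hij, hi, zero_mul]; rfl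
      · rw [Pi.single_apply, if_neg hij, mul_zero]; rfl
    have hpow : ∀ k, ((P' * g * P) ^ k).mulVec (Pi.single i 1 : σ → K) =
        (n' ^ k).mulVec (Pi.single i 1) := by
      intro k
      induction k with
      | zero => simp
      | succ k ih =>
        rw [pow_succ', ← Matrix.mulVec_mulVec, ih, hg', Matrix.add_mulVec, Matrix.mulVec_mulVec,
          (hcommD.pow_right k).eq, ← Matrix.mulVec_mulVec, hDe, Matrix.mulVec_zero, zero_add,
          Matrix.mulVec_mulVec, ← pow_succ']
    have h3 := hpow k0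
    rw [hn'k, Matrix.zero_mulVec, hconjpow, ← Matrix.mulVec_mulVec, hPe] at h3
    -- `g` is invertible
    obtain ⟨u, hu⟩ := hg.pow k0
    have h4 := congrArg (fun v => ((↑u⁻¹ : Matrix σ σ K) * P).mulVec v) h3
    simp only [Matrix.mulVec_mulVec, Matrix.mulVec_zero] at h4
    have h5 : (↑u⁻¹ : Matrix σ σ K) * P * (P' * g ^ k0) = 1 := by
      rw [Matrix.mul_assoc, ← Matrix.mul_assoc P, h1, Matrix.one_mul, ← hu, Units.inv_mul]
    rw [h5, Matrix.one_mulVec] at h4
    exact b.ne_zero i h4
  set D' : Matrix σ σ K := Matrix.diagonal (fun i => (μ i)⁻¹) with hD'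
  have hDD' : Matrix.diagonal μ * D' = 1 := by
    rw [hD', Matrix.diagonal_mul_diagonal]
    have : (fun i => μ i * (μ i)⁻¹) = fun _ => 1 := by
      funext i; exact mul_inv_cancel₀ (hμ i)
    rw [this, Matrix.diagonal_one]
  have hD'D : D' * Matrix.diagonal μ = 1 := by
    rw [hD', Matrix.diagonal_mul_diagonal]
    have : (fun i => (μ i)⁻¹ * μ i) = fun _ => 1 := by
      funext i; exact inv_mul_cancel₀ (hμ i)
    rw [this, Matrix.diagonal_one]
  have hcommD' : Commute D' n' := by
    show D' * n' = n' * D'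
    calc D' * n' = D' * n' * (Matrix.diagonal μ * D') := by rw [hDD', Matrix.mul_one]
      _ = D' * (Matrix.diagonal μ * n') * D' := by
          rw [hcommD.eq]; simp only [Matrix.mul_assoc]
      _ = n' * D' := by rw [← Matrix.mul_assoc, hD'D, Matrix.one_mul]
  have hnil2 : (D' * n') ^ (k0 + 1) = 0 := by
    rw [hcommD'.mul_pow, pow_succ n', hn'k, Matrix.zero_mul, Matrix.mul_zero]
  -- the inverse of `S0`
  set S0' : Matrix σ σ K := P * D' * P' with hS0'
  have hPDP : P * Matrix.diagonal μ * P' = S0 := by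
    rw [← hD]
    calc P * (P' * S0 * P) * P' = (P * P') * S0 * (P * P') := by simp only [Matrix.mul_assoc]
      _ = S0 := by rw [h1, Matrix.one_mul, Matrix.mul_one]
  have hS0inv : S0' * S0 = 1 := by
    rw [← hPDP, hS0']
    calc P * D' * P' * (P * Matrix.diagonal μ * P') =
        P * D' * (P' * P) * Matrix.diagonal μ * P' := by simp only [Matrix.mul_assoc]
      _ = P * (D' * Matrix.diagonal μ) * P' := by
          rw [h2, Matrix.mul_one]; simp only [Matrix.mul_assoc]
      _ = 1 := by rw [hD'D, Matrix.mul_one, h1]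
  have hS0'm : S0' ∈ Algebra.adjoin K {g} := by
    have h3 := inv_mem S0 S0' hS0inv
    exact (Algebra.adjoin_le (Set.singleton_subset_iff.2 hS0m)) h3
  obtain ⟨p, hN, hNe⟩ := log_poly (D' * n') k0 hnil2
  have hback : P * (D' * n') * P' = S0' * N0 := by
    rw [hn', hS0']
    calc P * (D' * (P' * N0 * P)) * P' = P * D' * P' * N0 * (P * P') := by
          simp only [Matrix.mul_assoc]
      _ = _ := by rw [h1, Matrix.mul_one]
  have hpoly : ∀ q : K[X], P * aeval (D' * n') q * P' = aeval (S0' * N0) q := by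
    intro q
    have hpow : ∀ k : ℕ, P * (D' * n') ^ k * P' = (S0' * N0) ^ k := by
      intro k
      induction k with
      | zero => rw [pow_zero, pow_zero, Matrix.mul_one, h1]
      | succ k ih =>
        rw [pow_succ, pow_succ, ← ih, ← hback]
        calc P * ((D' * n') ^ k * (D' * n')) * P' =
            P * (D' * n') ^ k * 1 * (D' * n') * P' := by
              rw [Matrix.mul_one]; simp only [Matrix.mul_assoc]
          _ = _ := by rw [← h2]; simp only [Matrix.mul_assoc]
    induction q using Polynomial.induction_on' with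
    | add a c ha hc => rw [map_add, map_add, Matrix.mul_add, Matrix.add_mul, ha, hc]
    | monomial k c =>
      rw [aeval_monomial, aeval_monomial, ← hpow k, Algebra.algebraMap_eq_smul_one,
        smul_mul_assoc, smul_mul_assoc, one_mul, one_mul, Matrix.mul_smul, Matrix.smul_mul]
  have hmem : S0' * N0 ∈ Algebra.adjoin K {g} := mul_mem hS0'm hN0m
  refine ⟨P, P', fun i => Units.mk0 (μ i) (hμ i), aeval (D' * n') p, k0, h1, h2, hN, ?_, ?_,
    inv_mem g g' hg'g, ?_, ?_⟩
  · have h3 : Commute (Matrix.diagonal μ) D' := by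
      show Matrix.diagonal μ * D' = D' * Matrix.diagonal μ
      rw [hDD', hD'D]
    have h4 : Commute (Matrix.diagonal μ) (aeval (D' * n') p) :=
      commute_aeval _ _ (h3.mul_right hcommD) p
    simpa using h4
  · have h3 : P' * g * P = Matrix.diagonal μ * exK (aeval (D' * n') p) k0 1 := by
      rw [hNe, hg', Matrix.mul_add, Matrix.mul_one, ← Matrix.mul_assoc, hDD', Matrix.one_mul]
    simpa using h3
  · rw [hpoly]
    have h3 : aeval (S0' * N0) p ∈ Algebra.adjoin K {S0' * N0} := aeval_mem_adjoin_singleton K _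
    exact (Algebra.adjoin_le (Set.singleton_subset_iff.2 hmem)) h3
  · intro hN00
    have h3 : (1 : Matrix σ σ K) + D' * n' = 1 := by
      rw [← hNe, hN00, exK, Finset.sum_eq_single 0]
      · simp
      · intro j _ hj
        rw [zero_pow hj, smul_zero]
      · intro h; exact absurd (Finset.mem_range.2 (Nat.succ_pos _)) h
    have h4 : D' * n' = 0 := by simpa using h3
    have h5 : n' = 0 := by
      calc n' = Matrix.diagonal μ * D' * n' := by rw [hDD', Matrix.one_mul]
        _ = 0 := by rw [Matrix.mul_assoc, h4, Matrix.mul_zero]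
    have h6 : N0 = 0 := by
      calc N0 = (P * P') * N0 * (P * P') := by rw [h1, Matrix.one_mul, Matrix.mul_one]
        _ = P * n' * P' := by rw [hn']; simp only [Matrix.mul_assoc]
        _ = 0 := by rw [h5, Matrix.mul_zero, Matrix.zero_mul]
    have h7 : n = 0 := by
      have := congrArg φ h6
      rwa [hN0, AlgEquiv.apply_symm_apply, map_zero] at this
    have h8 : φ g = s := by rw [hf, h7, zero_add]
    show Module.End.IsSemisimple (Matrix.toLin' g)
    have h9 : Matrix.toLin' g = φ g := rfl
    rw [h9, h8]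
    exact hss

end Pool.Agent.D0H35.OF
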