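import Pool.Agent.D0H89.OF.Stm

/-!
Module PROF of project OF: closed conjugation invariant sets of measure zero in profinite groups.
-/

set_option autoImplicit false

open MeasureTheory Pointwise Topology

namespace Pool.Agent.D0H35.OF

theorem t_PROF : Pool.Agent.D0H89.OF.S_PROF := by
  intro Γ _ _ _ _ _ _ _ _ μ _ _ B hB hinv hμ ε hε
  have hK : ∀ s : Set Γ, IsCompact (closure s) := fun s => isClosed_closure.isCompact
  have hreg : ∀ s : Set Γ, μ s = Measure.haarScalarFactor μ (Measure.haar : Measure Γ) •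
      (Measure.haar : Measure Γ) s := fun s =>
    Measure.measure_isMulInvariant_eq_smul_of_isCompact_closure μ _ (hK s)
  have hμ' : μ = Measure.haarScalarFactor μ (Measure.haar : Measure Γ) •
      (Measure.haar : Measure Γ) := by
    ext s _
    rw [hreg s]
    rfl
  have hr : μ.OuterRegular := by
    rw [hμ']
    infer_instance
  obtain ⟨V, hBV, hVo, hV⟩ := B.exists_isOpen_lt_of_lt (μ := μ) ε (by rw [hμ]; exact hε)
  have hBc : IsCompact B := hB.isCompact
  obtain ⟨W, hW, hBW⟩ := compact_open_separated_mul_right hBc hVo hBV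
  obtain ⟨H, hH⟩ := ProfiniteGrp.exist_openNormalSubgroup_sub_open_nhds_of_one
    (isOpen_interior (s := W)) (mem_interior_iff_mem_nhds.2 hW)
  have hHo : IsOpen ((H : Set Γ)) := H.toOpenSubgroup.isOpen
  have hHc : IsCompact ((H : Set Γ)) := (H.toOpenSubgroup.isClosed).isCompact
  refine ⟨B * (H : Set Γ), ⟨(hBc.mul hHc).isClosed, hHo.mul_left⟩, ?_, ?_, ?_⟩
  · rintro x _ ⟨b, hb, h, hh, rfl⟩
    refine ⟨x * b * x⁻¹, hinv x b hb, x * h * x⁻¹, ?_, ?_⟩
    · exact H.isNormal'.conj_mem h hh x
    · group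
  · intro b hb
    exact ⟨b, hb, 1, H.one_mem, mul_one b⟩
  · refine lt_of_le_of_lt (measure_mono ?_) hV
    refine subset_trans ?_ hBW
    exact Set.mul_subset_mul_left (hH.trans interior_subset)

end Pool.Agent.D0H35.OF
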